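import Pool.Agent.X31.T5

/-!
# Chowla-type sums with Möbius and squarefree factors, for all tuples of integers within `N ^ δ` of
# the values of generalised polynomials,
# at most scales

`f i(t) = ∑ u_x t ^ x` is an arbitrary finite real combination of real powers of `t` with a positive largest exponent
`c i` (for instance `t ^ {3/2}`, `√2 t ^ 3 + t`, `t ^ {1/10}`), and `M i` is an arbitrary subset of `{1, ..., Y i}` with at
least `Y i / N ^ δ` elements. The values considered are `b₀ + θ f(n)`, with arbitrary real `b₀` and `θ` for which these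
values are of size `N` (for instance `θ = N / Y ^ c`).
At most scales `N`: for all but a proportion `N ^ (-δ)` of the tuples `q` with `q i ∈ M i`, ALL tuples `s` of integers
within `N ^ δ` of the values at the `q i` satisfy
`|∑ n ≤ X, w n ∏ i ∈ I, μ (a n + s i) ∏ i ∈ K, μ² (a n + s i)| ≤ ε N` for all `a ≤ A`, all `I ≠ ∅`, `K` and all `X ≤ N`.

The minimal real additive energy of generalised polynomials is from `Pool.Agent.X31` (`gp_EB`, in this run); the theorem on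
families of small energy at most scales (`Pool.Agent.TH823.PS.most_good`) is in the starting files.
From Mathlib: `ArithmeticFunction.moebius`: the Möbius function; `Finset.Icc 1 X`: the integers `n` with `1 ≤ n ≤ X`.
-/

set_option autoImplicit false

namespace Pool.Agent.Results.MP_3e612f_nt.GeneralisedPolynomialTuples

open Finset

/-- the generalised polynomial with the exponents `x ∈ F` and the coefficients `u x` -/
noncomputable def f (F : Finset ℝ) (u : ℝ → ℝ) (t : ℝ) : ℝ := ∑ x ∈ F, u x * t ^ x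

/-- `M` is a subset of `{1, ..., Y}` with at least `Y / N ^ δ` elements, `Y ≤ N ^ D`; the number `θ` is at most
`N ^ δ` and at least `N / (Y ^ c N ^ δ)` in absolute value, and `|b₀ + θ f(n)| ≤ N` for all `n ∈ M`. -/
def Fam (D : ℕ) (F : Finset ℝ) (u : ℝ → ℝ) (c : ℝ) (N Y : ℕ) (δ θ b₀ : ℝ) (M : Finset ℕ) : Prop :=
  (Y : ℝ) ≤ (N : ℝ) ^ D ∧ |θ| ≤ (N : ℝ) ^ δ ∧ (N : ℝ) / (N : ℝ) ^ δ ≤ |θ| * (Y : ℝ) ^ c ∧
  M ⊆ Icc 1 Y ∧ (Y : ℝ) / (N : ℝ) ^ δ ≤ M.card ∧ ∀ n ∈ M, |b₀ + θ * f F u n| ≤ N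

/-- The Möbius function on the integers, `0` at the integers `m ≤ 0`. -/
def mu (m : ℤ) : ℤ := if 1 ≤ m then ArithmeticFunction.moebius m.toNat else 0

open Classical in
/-- The property `P` holds at most scales: the set of the positive integers `N` with the property `P` has upper
logarithmic density at least `1 - ε`. Precisely, for arbitrarily large `R` the sum of `1 / N` over the `N ≤ R`
without the property is at most `ε log R`. -/
def MostScales (ε : ℝ) (P : ℕ → Prop) : Prop :=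
  ∀ R₀ : ℕ, ∃ R : ℕ, R₀ ≤ R ∧ ∑ N ∈ (Icc 1 R).filter (fun N => ¬ P N), (1 : ℝ) / N ≤ ε * Real.log R

/-- The sum over `n ≤ X` of `w n * ∏ μ (a n + s i) * ∏ μ² (a n + s i)`, the first product over `i ∈ I`, the second
over `i ∈ K`. This is the sum `S(X)` of the problem, with the weight `w`, where the set `B` consists of the
`s i`, `i ∈ I`, and the set `D` of the `s i`, `i ∈ K`. -/
noncomputable def chowlaSum {r : ℕ} (a : ℕ) (s : Fin r → ℤ) (I K : Finset (Fin r)) (w : ℕ → ℂ) (X : ℕ) : ℂ :=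
  ∑ n ∈ Icc 1 X, w n * (((∏ i ∈ I, mu (a * n + s i)) * ∏ i ∈ K, mu (a * n + s i) ^ 2 : ℤ) : ℂ)

/-- The tuple `s` is good at the scale `N`: `|chowlaSum a s I K (w a) X| ≤ ε N` for all `a ≤ A`, all the sets `I ≠ ∅`
and `K` of indices and all `X ≤ N`. -/
def Good {r : ℕ} (A : ℕ) (ε : ℝ) (N : ℕ) (w : ℕ → ℕ → ℂ) (s : Fin r → ℤ) : Prop :=
  ∀ a : ℕ, 1 ≤ a → a ≤ A → ∀ I K : Finset (Fin r), I.Nonempty → ∀ X : ℕ, X ≤ N →
    ‖chowlaSum a s I K (w a) X‖ ≤ ε * N

/-- At the scale `N`: for all `Y i`, all real `θ i`, `b₀ i` and all sets `M i` with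
`Fam D (F i) (u i) (c i) N (Y i) δ (θ i) (b₀ i) (M i)`, and all weights `w a n` bounded by `1`: for all the tuples `q` with `q i ∈ M i`
with at most `∏ #(M i) / N ^ δ` exceptions, ALL the tuples `s` of integers with `|s i - (b₀ i + θ i * f (F i) (u i) (q i))| ≤ N ^ δ` are good. -/
def Tuples (A : ℕ) {r : ℕ} (D : ℕ) (F : Fin r → Finset ℝ) (u : Fin r → ℝ → ℝ) (c : Fin r → ℝ) (ε δ : ℝ) (N : ℕ) : Prop :=
  ∀ (Y : Fin r → ℕ) (θ b₀ : Fin r → ℝ) (M : Fin r → Finset ℕ),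
    (∀ i, Fam D (F i) (u i) (c i) N (Y i) δ (θ i) (b₀ i) (M i)) →
    ∀ w : ℕ → ℕ → ℂ, (∀ a n, ‖w a n‖ ≤ 1) →
      ∃ E : Finset (Fin r → ℕ), (E.card : ℝ) ≤ (∏ i, ((M i).card : ℝ)) * (N : ℝ) ^ (-δ) ∧
        ∀ q : Fin r → ℕ, (∀ i, q i ∈ M i) → q ∉ E →
          ∀ s : Fin r → ℤ, (∀ i, |(s i : ℝ) - (b₀ i + θ i * f (F i) (u i) (q i))| ≤ (N : ℝ) ^ δ) → Good A ε N w s

lemma dat_of {D : ℕ} {F : Finset ℝ} {u : ℝ → ℝ} {c : ℝ} {N Y : ℕ} {δ θ b₀ : ℝ} {M : Finset ℕ}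
    (h : Fam D F u c N Y δ θ b₀ M) :
    Pool.Agent.X31.DatGT D c ((N : ℝ) ^ δ) N Y θ b₀ (fun n => Pool.Agent.X31.gp F u n) M :=
  ⟨h.1, h.2.1, h.2.2.1, h.2.2.2.1, h.2.2.2.2.1, h.2.2.2.2.2⟩

lemma most_of {ε : ℝ} {P P' : ℕ → Prop} (h : Pool.Agent.TH823.PS.Most ε P) (hPP : ∀ N, P N → P' N) :
    MostScales ε P' := by
  classical
  have h' : MostScales ε P := h
  intro R₀
  obtain ⟨R, hR, h1⟩ := h' R₀
  refine ⟨R, hR, le_trans ?_ h1⟩
  apply sum_le_sum_of_subset_of_nonneg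
  · intro N hN
    simp only [mem_filter] at hN ⊢
    exact ⟨hN.1, fun h2 => hN.2 (hPP N h2)⟩
  · intro _ _ _; positivity

lemma mu_eq (m : ℤ) : (mu m : ℂ) = Pool.Agent.H373R2.T7.exI Pool.Agent.H373R2.T7.muC m := by
  unfold mu Pool.Agent.H373R2.T7.exI Pool.Agent.H373R2.T7.muC
  split_ifs <;> simp

lemma mu_cube (m : ℤ) : mu m * mu m ^ 2 = mu m := by
  unfold mu
  split_ifs
  · rcases ArithmeticFunction.moebius_eq_or m.toNat with h | h | h <;> rw [h] <;> norm_num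
  · simp

lemma mu_abs (m : ℤ) : |mu m| ≤ 1 := by
  unfold mu
  split_ifs
  · exact ArithmeticFunction.abs_moebius_le_one
  · simp

/-- the summand with one entry distinguished -/
lemma summand {r : ℕ} (i₀ : Fin r) (g : Fin r → ℤ) (I K : Finset (Fin r)) (hI : i₀ ∈ I) :
    (∏ i ∈ I, mu (g i)) * ∏ i ∈ K, mu (g i) ^ 2 =
      ((∏ i ∈ I.erase i₀, mu (g i)) * ∏ i ∈ K.erase i₀, mu (g i) ^ 2) * mu (g i₀) := by
  rw [← mul_prod_erase I _ hI]
  by_cases h2 : i₀ ∈ K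
  · rw [← mul_prod_erase K _ h2]
    have := mu_cube (g i₀)
    linear_combination (∏ i ∈ I.erase i₀, mu (g i)) * (∏ i ∈ K.erase i₀, mu (g i) ^ 2) * this
  · rw [erase_eq_of_notMem h2]
    ring

/-- Let `F i` be finite sets of real numbers with the maxima `c i > 0`, `u i (c i) ≠ 0` (`i < r`), `D` an integer. Let `A` be an integer and `ε > 0`.
There is a `δ > 0` such that at most scales `N`, that is on a set of `N` of upper logarithmic density at least `1 - ε`,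
`Tuples A D F u c ε δ N` holds: for all `Y i`, all real `θ i`, `b₀ i` and all sets `M i` with
`Fam D (F i) (u i) (c i) N (Y i) δ (θ i) (b₀ i) (M i)`, and all weights `w a n` bounded by `1`,
for all the tuples `q` with `q i ∈ M i` with at most `∏ #(M i) / N ^ δ` exceptions, ALL the tuples `s` of integers with
`|s i - (b₀ i + θ i * f (F i) (u i) (q i))| ≤ N ^ δ` satisfy
`|∑ n ≤ X, w a n * ∏ i ∈ I, μ (a n + s i) * ∏ i ∈ K, μ² (a n + s i)| ≤ ε N` for all `a ≤ A`, all the sets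
`I ≠ ∅` and `K` of indices and all `X ≤ N`. -/
theorem result (A r : ℕ) (D : ℕ) (F : Fin r → Finset ℝ) (u : Fin r → ℝ → ℝ) (c : Fin r → ℝ) 
    (hF : ∀ i, c i ∈ F i ∧ (∀ x ∈ F i, x ≤ c i) ∧ u i (c i) ≠ 0 ∧ 0 < c i) (ε : ℝ) (hε : 0 < ε) :
    ∃ δ : ℝ, 0 < δ ∧ MostScales ε (Tuples A D F u c ε δ) := by
  classical
  obtain ⟨E', HS⟩ : ∃ E' : Fin r → ℕ, ∀ i,
      Pool.Agent.X31.SchT (E' i) (Pool.Agent.X31.QGp D (F i) (u i) (c i)) := by
    choose E' HS using fun i => Pool.Agent.X31.SchT_gp D (F i) (u i) (c i) (hF i).1 (hF i).2.1 (hF i).2.2.1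
      (hF i).2.2.2
    exact ⟨E', HS⟩
  obtain ⟨e⟩ : Nonempty (Fin (Fintype.card {t : Fin A × Finset (Fin r) × Finset (Fin r) // t.2.1.Nonempty}) ≃
      {t : Fin A × Finset (Fin r) × Finset (Fin r) // t.2.1.Nonempty}) := ⟨(Fintype.equivFin _).symm⟩
  obtain ⟨δ, hδ, H⟩ := Pool.Agent.X31.SchT.most HS (fun _ => 0) Pool.Agent.TH823.PS.nice_muC (A + 1)
    (Fintype.card {t : Fin A × Finset (Fin r) × Finset (Fin r) // t.2.1.Nonempty}) (by omega) hε
  refine ⟨δ, hδ, most_of (H 1) fun N h => ?_⟩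
  obtain ⟨hN1, H1⟩ := h
  intro Y θ b₀ M hfam w hw
  obtain ⟨i₀, hi₀⟩ : ∃ i₀ : (Fin (Fintype.card {t : Fin A × Finset (Fin r) × Finset (Fin r) // t.2.1.Nonempty})) → Fin r,
      ∀ l, i₀ l ∈ (e l).1.2.1 := ⟨fun l => (e l).2.choose, fun l => (e l).2.choose_spec⟩
  obtain ⟨E, hE1, hE2⟩ := H1 M (fun i n => (b₀ i + θ i * f (F i) (u i) n)) (fun i => ⟨Y i, θ i, b₀ i, dat_of (hfam i), fun _ => rfl⟩)
    (fun l => (e l).1.1.1 + 1) (fun l => by omega) i₀
    (fun l s n => w ((e l).1.1.1 + 1) n * ((((∏ i ∈ (e l).1.2.1.erase (i₀ l), mu (((e l).1.1.1 + 1 : ℕ) * n + s i)) *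
      ∏ i ∈ (e l).1.2.2.erase (i₀ l), mu (((e l).1.1.1 + 1 : ℕ) * n + s i) ^ 2 : ℤ)) : ℂ)) (by
      intro l s n
      rw [norm_mul]
      refine mul_le_one₀ (hw _ n) (norm_nonneg _) ?_
      rw [Complex.norm_intCast]
      have h1 : |(∏ i ∈ (e l).1.2.1.erase (i₀ l), mu (((e l).1.1.1 + 1 : ℕ) * n + s i)) *
          ∏ i ∈ (e l).1.2.2.erase (i₀ l), mu (((e l).1.1.1 + 1 : ℕ) * n + s i) ^ 2| ≤ 1 := by
        rw [abs_mul, abs_prod, abs_prod]
        refine mul_le_one₀ (prod_le_one (fun _ _ => abs_nonneg _) fun i _ => mu_abs _)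
          (prod_nonneg fun _ _ => abs_nonneg _) (prod_le_one (fun _ _ => abs_nonneg _) fun i _ => ?_)
        rw [abs_pow]
        exact pow_le_one₀ (abs_nonneg _) (mu_abs _)
      exact_mod_cast h1) (by
      intro l s s' n hss
      have e1 : ∏ i ∈ (e l).1.2.1.erase (i₀ l), mu (((e l).1.1.1 + 1 : ℕ) * n + s i) =
          ∏ i ∈ (e l).1.2.1.erase (i₀ l), mu (((e l).1.1.1 + 1 : ℕ) * n + s' i) :=
        prod_congr rfl fun i hi => by rw [hss i (mem_erase.1 hi).1]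
      have e2 : ∏ i ∈ (e l).1.2.2.erase (i₀ l), mu (((e l).1.1.1 + 1 : ℕ) * n + s i) ^ 2 =
          ∏ i ∈ (e l).1.2.2.erase (i₀ l), mu (((e l).1.1.1 + 1 : ℕ) * n + s' i) ^ 2 :=
        prod_congr rfl fun i hi => by rw [hss i (mem_erase.1 hi).1]
      rw [e1, e2])
  refine ⟨E, hE1, fun q hq hqE s hs a ha haA I K hI X hX => ?_⟩
  obtain ⟨l, hl⟩ : ∃ l, e l = ⟨(⟨a - 1, by omega⟩, I, K), hI⟩ := e.surjective _
  have h1 := hE2 q hq hqE s hs l X (by
    have : (e l).1.1.1 + 1 ≤ A + 1 := by have := (e l).1.1.2; omega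
    exact Nat.mul_le_mul this hX)
  have hi := hi₀ l
  rw [hl] at h1 hi
  have ea : a - 1 + 1 = a := by omega
  simp only [ea] at h1 hi
  refine le_trans (le_of_eq ?_) h1
  unfold chowlaSum
  congr 1
  apply sum_congr rfl
  intro n _
  rw [summand (i₀ l) (fun i => (a : ℤ) * n + s i) I K hi, ← mu_eq]
  push_cast
  ring

end Pool.Agent.Results.MP_3e612f_nt.GeneralisedPolynomialTuples
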