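import Pool.Agent.X84.Sp.Comp

/-!
# The logarithmically averaged Sarnak conjecture and spectra of small measure
-/

set_option autoImplicit false

open Filter Topology MeasureTheory Finset

namespace Pool.Agent.Results.MP_3e612f_nt.SpectrumOfSmallMeasure

universe u

/-- the Möbius function -/
def mu (n : ℕ) : ℤ := ArithmeticFunction.moebius n

/-- the Liouville function -/
def lam (n : ℕ) : ℤ := (-1) ^ ArithmeticFunction.cardFactors n

/-- `e t = exp (2 π i t)` -/
noncomputable def e (t : ℝ) : ℂ := Complex.exp (2 * Real.pi * Complex.I * t)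

/-- The sequence `a` has its spectrum in `K ⊆ ℝ/ℤ`: it is annihilated by each absolutely summable
`c : ℤ → ℂ` whose Fourier series `∑ c n exp (2 π i n η)` vanishes for all `η` in an open set
which contains `K` (`fourier n η` is `exp (2 π i n η)`). -/
def SpectrumIn (K : Set UnitAddCircle) (a : ℤ → ℂ) : Prop :=
  ∀ c : ℤ → ℂ, Summable (fun n => ‖c n‖) →
    (∃ U : Set UnitAddCircle, IsOpen U ∧ K ⊆ U ∧ ∀ η ∈ U, ∑' n, c n * fourier n η = 0) →
    ∑' n, c n • a n = 0

/-- the two-sided sequences bounded by one with spectrum in `K` -/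
def Band (K : Set UnitAddCircle) : Set (ℤ → ℂ) := {a | (∀ n, ‖a n‖ ≤ 1) ∧ SpectrumIn K a}

/-- the normalised Lebesgue measure of `K` -/
noncomputable def meas (K : Set UnitAddCircle) : ℝ := (volume K).toReal

/-- Windows: in logarithmic mean over `n`, the square of the sum of `f (n + h) e (hθ) b n h` over
`h < L` is at most `(|K| + ε) L²`, for all large `L` and all large `N`, uniformly in the twist `θ`
and in the sequences `b n` in `Band K`, which may change with `n`. -/
def WindowBound (f : ℕ → ℤ) (K : Set UnitAddCircle) : Prop :=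
  ∀ ε : ℝ, 0 < ε → ∃ L₀ : ℕ, ∀ L : ℕ, L₀ ≤ L → ∃ N₀ : ℕ, ∀ N : ℕ, N₀ ≤ N →
    ∀ (θ : ℝ) (b : ℕ → ℤ → ℂ), (∀ n, b n ∈ Band K) →
      ∑ n ∈ Icc 1 N, (1 / (n : ℝ)) * ‖∑ h ∈ range L, (f (n + h) : ℂ) * e (h * θ) * b n h‖ ^ 2 ≤
        (meas K + ε) * L ^ 2 * Real.log N

/-- Logarithmic means: the logarithmic mean of `f n e (nθ) b n` is at most `√|K| + ε` in modulus, for
all large `N`, uniformly in the twist `θ` and in the sequence `b` in `Band K`. -/
def MeanBound (f : ℕ → ℤ) (K : Set UnitAddCircle) : Prop :=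
  ∀ ε : ℝ, 0 < ε → ∃ N₀ : ℕ, ∀ N : ℕ, N₀ ≤ N → ∀ (θ : ℝ), ∀ b ∈ Band K,
    ‖∑ n ∈ Icc 1 N, (f n : ℂ) * e (n * θ) * b n / n‖ ≤ (Real.sqrt (meas K) + ε) * Real.log N

section sys

variable {X : Type u} [TopologicalSpace X]

/-- The function `g` has its spectrum in `K` in the system `(X, T)`: each sequence
`g (T x), g (T² x), …` extends to a two-sided sequence with spectrum in `K`, bounded uniformly
in `x`. -/
def FunctionSpectrumIn (T : X → X) (K : Set UnitAddCircle) (g : C(X, ℂ)) : Prop :=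
  ∃ B : ℝ, ∀ x, ∃ a : ℤ → ℂ, (∀ n, ‖a n‖ ≤ B) ∧ (∀ n : ℕ, 1 ≤ n → a n = g (T^[n] x)) ∧
    SpectrumIn K a

/-- the functions with spectrum in a closed set of measure zero -/
def NullSpectrum (T : X → X) : Set C(X, ℂ) :=
  {g | ∃ K, IsClosed K ∧ volume K = 0 ∧ FunctionSpectrumIn T K g}

/-- The function `g` is disjoint from `f`, uniformly in the points and the twists: in logarithmic mean
over windows of length `L`, where the point may change with the window, as `L → ∞`; and in
logarithmic mean over `[1, N]`. -/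
def Disjoint' (T : X → X) (g : C(X, ℂ)) (f : ℕ → ℤ) : Prop :=
  (∀ ε : ℝ, 0 < ε → ∃ L₀ : ℕ, ∀ L : ℕ, L₀ ≤ L → ∃ N₀ : ℕ, ∀ N : ℕ, N₀ ≤ N → ∀ (θ : ℝ) (y : ℕ → X),
    ∑ n ∈ Icc 1 N, (1 / (n : ℝ)) * ‖∑ h ∈ range L, (f (n + h) : ℂ) * e (h * θ) * g (T^[n + h] (y n))‖ ≤
      ε * L * Real.log N) ∧
  (∀ ε : ℝ, 0 < ε → ∃ N₀ : ℕ, ∀ N : ℕ, N₀ ≤ N → ∀ (θ : ℝ) (x : X),
    ‖∑ n ∈ Icc 1 N, (f n : ℂ) * e (n * θ) * g (T^[n] x) / n‖ ≤ ε * Real.log N)

open Classical in
/-- a set of positive integers of logarithmic density one -/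
def LogDensityOne (s : Set ℕ) : Prop :=
  Tendsto (fun Z : ℕ => (1 / Real.log (Z : ℝ)) * ∑ n ∈ (Icc 1 Z).filter (· ∈ s), (1 / (n : ℝ)))
    atTop (𝓝 1)

/-- There is one set `s` of logarithmic density one such that the averages of `f n g (T^n x)` over
`[1, N]` tend to zero for `N → ∞` in `s`, uniformly in `x`, for all `g` in `D`. -/
def AlongDensityOne (T : X → X) (D : Set C(X, ℂ)) (f : ℕ → ℤ) : Prop :=
  ∃ s : Set ℕ, LogDensityOne s ∧ ∀ g ∈ D, ∀ ε : ℝ, 0 < ε → ∃ N₀ : ℕ, ∀ N ∈ s, N₀ ≤ N → ∀ x : X,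
    ‖∑ n ∈ Icc 1 N, (f n : ℂ) * g (T^[n] x)‖ ≤ ε * N

end sys

/-- the logarithmically averaged Sarnak conjecture for `(X, T)`, as in the problem -/
def LogSarnak {X : Type u} [TopologicalSpace X] (T : X → X) : Prop :=
  ∀ (g : C(X, ℂ)) (x : X), Tendsto (fun N : ℕ => (1 / (Real.log N : ℂ)) *
    ∑ n ∈ Icc 1 N, g (T^[n] x) * (mu n : ℂ) / n) atTop (𝓝 0)

/-- the bounds for sequences with spectrum in the closed set `K` -/
def PartA (f : ℕ → ℤ) : Prop := ∀ K : Set UnitAddCircle, IsClosed K → WindowBound f K ∧ MeanBound f K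

/-- the disjointness for the functions in the closure of the space `NullSpectrum T` -/
def PartB (f : ℕ → ℤ) : Prop :=
  ∀ (X : Type u) [MetricSpace X] [CompactSpace X] (T : X → X), Continuous T →
    (∀ g ∈ closure (NullSpectrum T), Disjoint' T g f) ∧ AlongDensityOne T (closure (NullSpectrum T)) f

open Pool.Agent.X84.Sp
open Pool.Agent.Y326 (TwoPoint ex)

theorem windowBound {K : Set UnitAddCircle} {f : ℕ → ℤ} (hf : ∀ n, |f n| ≤ 1) (hT : TwoPoint f)
    (hK : IsClosed K) : WindowBound f K := by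
  intro ε hε
  obtain ⟨L₀, -, h2⟩ := windows hf hT hK ε hε
  refine ⟨L₀, fun L hL => ?_⟩
  obtain ⟨N₀, -, h4⟩ := h2 L hL
  refine ⟨N₀, fun N hN θ b hb => le_trans (le_of_eq ?_) (h4 N hN (θ : UnitAddCircle) b hb)⟩
  unfold Pool.Agent.TH833.BL.S
  refine sum_congr rfl fun n _ => ?_
  have h5 : ∀ h : ℕ, (f (n + h) : ℂ) * e (h * θ) * b n h =
      (((f (n + h) : ℝ) : ℂ) * fourier (h : ℤ) (θ : UnitAddCircle)) * b n h := by
    intro h
    have h6 : e (h * θ) = fourier (h : ℤ) (θ : UnitAddCircle) := ex_fourier h θ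
    rw [h6]
    push_cast
    rfl
  simp only [h5]

theorem partA {f : ℕ → ℤ} (hf : ∀ n, |f n| ≤ 1) (hT : TwoPoint f) : PartA f := fun _ hK =>
  ⟨windowBound hf hT hK, fun ε hε => seq_log hf hT hK ε hε⟩

theorem partB {f : ℕ → ℤ} (hf : ∀ n, |f n| ≤ 1) (hT : TwoPoint f) : PartB.{u} f := by
  intro X _ _ T hTc
  have hLW : ∀ g ∈ closure (NullSpectrum T),
      Pool.Agent.Y326.LW f (fun n => ((cop hTc)^[n]) g) := fun g hg => lw_cl hf hT hTc hg
  refine ⟨fun g hg => ⟨win_pt hf hTc (hLW g hg), fun ε hε => mean_pt hf hTc (hLW g hg) ε hε⟩, ?_⟩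
  obtain ⟨s, hs1, hs2⟩ := scales_pt hf hTc (closure (NullSpectrum T))
    (TopologicalSpace.IsSeparable.of_separableSpace _) hLW
  classical
  refine ⟨s, ?_, hs2⟩
  have := Pool.Agent.Y326.ld_one s hs1
  unfold LogDensityOne
  convert this

/-- **The logarithmically averaged Sarnak conjecture and spectra of small measure.** Let `f` be the
Möbius or the Liouville function. (1) For each closed `K ⊆ ℝ/ℤ`, in logarithmic mean over the windows
of length `L` the square of the sum of `f` against any sequences bounded by one with spectrum in `K`,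
which may change with the window, is at most `(|K| + o(1)) L²` as `L → ∞`, and the logarithmic means of
`f b` are at most `√|K| + o(1)`, uniformly over the sequences `b` bounded by one with spectrum in `K`.
(2) In a compact metric system `(X, T)` each function in the closure of the space of the functions with
spectrum in a closed set of measure zero is disjoint from `f`, uniformly. (3) If this closure is
`C(X)`, the logarithmically averaged Sarnak conjecture holds for `(X, T)`. -/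
theorem result : (PartA mu ∧ PartA lam) ∧ (PartB.{u} mu ∧ PartB.{u} lam) ∧
    ∀ (X : Type u) [MetricSpace X] [CompactSpace X] (T : X → X), Continuous T →
      closure (NullSpectrum T) = Set.univ → LogSarnak T := by
  have hmu : TwoPoint mu := Pool.Agent.Y326.TwoPoint.mu
  have hlam : TwoPoint lam := Pool.Agent.Y326.TwoPoint.lam
  have bmu : ∀ n, |mu n| ≤ 1 := fun n => ArithmeticFunction.abs_moebius_le_one
  have blam : ∀ n, |lam n| ≤ 1 := Pool.Agent.TH823.MRS.lam_bdd
  refine ⟨⟨partA bmu hmu, partA blam hlam⟩, ⟨partB bmu hmu, partB blam hlam⟩, ?_⟩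
  intro X _ _ T hTc hd g x
  obtain ⟨-, h1⟩ := (partB bmu hmu X T hTc).1 g (by rw [hd]; trivial)
  rw [Metric.tendsto_atTop]
  intro ε hε
  obtain ⟨N₀, hN₀⟩ := h1 (ε / 2) (by positivity)
  refine ⟨max N₀ 3, fun N hN => ?_⟩
  have h2 := hN₀ N ((le_max_left _ _).trans hN) 0 x
  have hl := Pool.Agent.TH833.BL.one_le_log ((le_max_right _ _).trans hN)
  have h0 : (0 : ℝ) < Real.log N := by linarith
  have e0 : ∑ n ∈ Icc 1 N, g (T^[n] x) * (mu n : ℂ) / n =
      ∑ n ∈ Icc 1 N, (mu n : ℂ) * e (n * 0) * g (T^[n] x) / n := by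
    refine sum_congr rfl fun n _ => ?_
    have : e (n * 0) = 1 := by unfold e; simp
    rw [this]
    ring
  rw [dist_zero_right, e0, norm_mul, norm_div, norm_one, Complex.norm_real, Real.norm_eq_abs,
    abs_of_pos h0]
  calc 1 / Real.log (N : ℝ) * ‖∑ n ∈ Icc 1 N, (mu n : ℂ) * e (n * 0) * g (T^[n] x) / n‖ ≤
      1 / Real.log (N : ℝ) * (ε / 2 * Real.log N) :=
        mul_le_mul_of_nonneg_left h2 (by positivity)
    _ = ε / 2 := by field_simp
    _ < ε := by linarith

end Pool.Agent.Results.MP_3e612f_nt.SpectrumOfSmallMeasure
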